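import Pool.Agent.Lib.DN.R.KmE
import Pool.Agent.Lib.DS.D.Brg
import Pool.Agent.Lib.DR.E.AllA

/-!
# Theorem DR: supersingular reduction above two; quotients of framings (helper46)
-/

set_option autoImplicit false

open scoped Pointwise nonZeroDivisors

noncomputable section

namespace Pool.Agent.DR

open Pool.Agent.MuZ Pool.Agent.FW Pool.Agent.DN NumberField IsDedekindDomain
open Pool.Agent.DI (io ofC io_inj exists_io io_ofC ofC_io VP MP UP TP ex)

/-- The norms of `pO` and `pO - 2`. -/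
theorem pO_nm (n t : ℕ) [h : Rmf n t] : ∃ m m' : ℤ, ¬ (2 : ℤ) ∣ m ∧ Nm (pO n t) = 2 * m ∧ ¬ (2 : ℤ) ∣ m' ∧
    Nm (pO n t - 2) = 2 * m' := by
  have ht := h.zero
  have hsq : (n % 4 = 1 ∨ n % 4 = 2) := by
    rcases h.out with ⟨h1, -, -⟩ | ⟨-, h0, h1, h2⟩
    · omega
    · by_contra hc
      have h4 : n % 4 = 0 := by omega
      obtain ⟨k, hk⟩ := Nat.dvd_of_mod_eq_zero h4
      have h5 : 2 * 2 ∣ n := ⟨k, by omega⟩
      have := h1 2 h5
      rw [Nat.isUnit_iff] at this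
      omega
  have r2 : (2 : OO n t).re = 2 := by have := re_nat (n := n) (t := t) 2; exact_mod_cast this
  have i2 : (2 : OO n t).im = 0 := by have := im_nat (n := n) (t := t) 2; exact_mod_cast this
  have e1 : Nm (pO n t) = ((n % 2 : ℕ) : ℤ) ^ 2 + n := by
    unfold Nm pO
    simp only
    rw [ht]
    push_cast
    ring
  have e2 : Nm (pO n t - 2) = (((n % 2 : ℕ) : ℤ) - 2) ^ 2 + n := by
    unfold Nm
    rw [QuadraticAlgebra.re_sub, QuadraticAlgebra.im_sub, r2, i2]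
    unfold pO
    simp only
    rw [ht]
    push_cast
    ring
  rcases hsq with h4 | h4
  · have h5 : n % 2 = 1 := by omega
    rw [h5] at e1 e2
    refine ⟨((1 : ℤ) + n) / 2, ((1 : ℤ) + n) / 2, ?_, ?_, ?_, ?_⟩
    · omega
    · rw [e1]; push_cast; omega
    · omega
    · rw [e2]; push_cast; omega
  · have h5 : n % 2 = 0 := by omega
    rw [h5] at e1 e2
    refine ⟨(n : ℤ) / 2, ((4 : ℤ) + n) / 2, ?_, ?_, ?_, ?_⟩
    · omega
    · rw [e1]; push_cast; omega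
    · omega
    · rw [e2]; push_cast; omega

section

variable {n t : ℕ} [Rmf n t] {Γ : Type} [LinearOrderedCommGroupWithZero Γ] {v : Valuation ℂ Γ}

/-- Supersingular reduction above two. -/
theorem r_ss (hv : v 2 < 1) {b : Ideal (OO n t)} (hb : b ≠ ⊥) {e s : ℂ} (hg : GCd v b e s) : v (c2 e s) < 1 := by
  obtain ⟨m, m', h1, h2, h3, h4⟩ := pO_nm n t
  exact ram_ss hv hb hg h1 h2 h3 h4

theorem r_good (hv : v 2 < 1) {b : Ideal (OO n t)} (hG : G15 b) :
    v (A3 b) = 1 ∧ v (A1 b) < 1 ∧ v (A1 b ^ 3 - 27 * A3 b) = 1 ∧ GCd v b (wpC b (1 / 3)) (fr b ^ 2) := by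
  obtain ⟨h3, -, hd, hg⟩ := mod_two hv hG
  refine ⟨h3, ?_, hd, hg⟩
  have h := r_ss hv hG.ne hg
  rw [(XC_c hG).1] at h
  exact mof_pow h

end

theorem sR2a (R1 : DS.S_R1) : S_R2a := by
  intro n t _ P hP
  obtain ⟨V, hV⟩ := exists_VQ hP.1
  have hv := hV.two_lt hP.2
  refine ⟨⟨hP.1, fun b hG => ?_⟩, fun b hG => ?_⟩
  · obtain ⟨h3, h1, hd, -⟩ := r_good hv hG
    obtain ⟨r1, r3, -, -⟩ := (R1.1 n t).1 b hG
    refine ⟨(hV.le _).1 (by rw [r1]; exact h1.le), (hV.eq _).1 (by rw [r3]; exact h3), (hV.eq _).1 ?_⟩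
    rw [map_sub, map_mul, map_pow, map_ofNat, r1, r3]
    exact hd
  · obtain ⟨h3, h1, -, -⟩ := r_good hv hG
    exact (hV.lt _).1 (by rw [((R1.1 n t).1 b hG).1]; exact h1)

/-- The quotients of the framings at the primes whose residue characteristic does not divide the degree. -/
theorem rO_unit {n t : ℕ} [SqN n t] (R1 : DS.S_R1) {Q : Ideal ZZ} {V : ValuationSubring ℂ} (hV : VQ Q V)
    (hQ : GQ n t Q) {a b : Ideal (OO n t)} (ha : a ≠ ⊥) (hG : G15 b) (ha15 : PrI a 15)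
    (hva : V.valuation (NI a : ℂ) = 1) : UP Q (rO b (a * b)) := by
  have hG' : G15 (a * b) := ⟨mul_ne_zero ha hG.ne, ((aO6 n t).1 15 a b).2 ⟨ha15, hG.cop⟩⟩
  have h1 := scale_eq ha hG.ne hva (hV.goodS R1 hQ hG) (hV.goodS R1 hQ hG')
  have hf := (XC_c hG).2.2.2.2.1
  refine (hV.eq _).1 ?_
  rw [(((R1.1 n t).1 b hG).2.2.2 (a * b) hG').1]
  refine uof_pow two_ne_zero ?_
  rw [div_pow, map_div₀, h1]
  exact div_self ((V.valuation.ne_zero_iff).2 hf)

theorem sRu (R1 : DS.S_R1) : S_Ru := by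
  intro n t _ P hP b hG a ha ha2 ha15
  obtain ⟨V, hV⟩ := exists_VQ hP.1
  have hv := hV.two_lt hP.2
  exact rO_unit R1 hV (sR2a R1 n t P hP).1 ha hG ha15 (v_odd hv (NI_odd ha2))

end Pool.Agent.DR
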