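import Pool.Agent.Lib.DR.D.D2
import Pool.Agent.Lib.DR.E.AllZ

/-!
# Theorem DR: `S_D2` without hypotheses (helper46)
-/

set_option autoImplicit false

noncomputable section

namespace Pool.Agent.DR

open Pool.Agent.DN

theorem d2T : S_2T := fun n t _ P hP b hG _ hT hT' =>
  pp_one DS.zXOm DS.zE1 dE4a dL6 dR2b (dSS n t P hP) hG hT hT'

theorem dD2 : S_D2 := sD2 DS.zR1 DS.zXOm DS.zD1 dO4 dL6 d2T

end Pool.Agent.DR
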