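import Pool.Agent.Lib.DR.Iface
import Pool.Agent.Lib.DR.O.L6
import Pool.Agent.Lib.DS.D.AllE

/-!
# Theorem DR: the statements of parts R and D which are instances of the ones of `DS` (helper58), no hypotheses
-/

set_option autoImplicit false

noncomputable section

namespace Pool.Agent.DR

open Pool.Agent.DN

theorem dO4 : S_O4 := sO4
theorem dL6 : S_L6 := sL6
theorem dR1 : S_R1 := by
  obtain ⟨h1, c, hc, h2⟩ := DS.zR1
  exact ⟨fun n t _ => h1 n t, c, hc, fun n t _ => h2 n t⟩
theorem dR3 : S_R3 := fun n t _ => DS.zR3 n t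
theorem dD1 : S_D1 := fun n t _ => DS.zD1 n t
theorem dD3 : S_D3 := fun n t _ => DS.yD3 n t
theorem dD4 : S_D4 := fun n t _ => DS.yD4 n t
theorem dD5 : S_D5 := fun n t _ => DS.yD5 n t
theorem dD6 : S_D6 := fun n t _ => DS.yD6 n t
theorem dD7 : S_D7 := fun n t _ => DS.zD7 n t
theorem dD8 : S_D8 := fun n t _ => DS.zD8 n t
theorem dD9 : S_D9 := fun n t _ => DS.yD9 n t

end Pool.Agent.DR
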