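import Pool.Agent.Lib.DR.E.R2b
import Pool.Agent.Lib.DS.E.SpecA

/-!
# Theorem DR, part D: the valuations at the points of order `pp ^ j` (author helper39)

`X(T)` has the valuation `-1` for `T` of order `pp`; `X(d)` has the valuation `-1 / 2 ^ k` for `d` of exact order
`pp ^ (k + 1)`; `X(z + d) - X(z)` has the valuation `1 / 2 ^ (j + 1)` for `d` of exact order `pp ^ (j + 1)`.
-/

set_option autoImplicit false

open scoped Pointwise nonZeroDivisors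

noncomputable section

namespace Pool.Agent.DR

open Pool.Agent.MuZ Pool.Agent.FW NumberField IsDedekindDomain Pool.Agent.DN
open Pool.Agent.DI (io ofC io_inj exists_io io_ofC ofC_io VP MP UP TP ex)

/-- Supersingular reduction above `2`. -/
def S_SS : Prop := ∀ (n t : ℕ) [Rmf n t] (P : Ideal ZZ), Ab2 P → DS.SS n t P

/-! ## Supersingular reduction: the 2-power torsion points are in the kernel -/

section SS

variable {n t : ℕ} [SqN n t] {P : Ideal ZZ} {b : Ideal (OO n t)}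

omit [SqN n t] in
theorem ss_vo (hS : DS.SS n t P) (hb : G15 b) {z : ℂ} (hz : Tor n t z) (h : ¬ IK P b z) : UP P (vO b z) := by
  have := hS.ab.1.1
  exact DI.UP.congr (hS.gq.2 b hb).2.1 (hS.vo b hb z hz h)

theorem ss_half (hX : DS.S_XOm) (hD1 : DS.S_D1) (hS : DS.SS n t P) (hb : G15 b) {z : ℂ} (hz : Tor n t z)
    (h : IK P b (2 * z)) : IK P b z := by
  have := hS.ab.1.1
  by_contra hn
  have hXb := hX n t b hb
  have hl : z ∉ Lam b := fun h' => hn ((hD1 n t P hS.gq b hb).2.1 z h')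
  have hV : VP P (xO b z) := by
    by_contra h'
    exact hn ⟨hz, Or.inr h'⟩
  have hW := ss_vo hS hb hz hn
  have h2 : 2 * z ∉ Lam b := fun h' => hW.ne_zero ((hXb.two z hz hl).2 h')
  obtain ⟨ha1, ha3, -⟩ := hS.gq.2 b hb
  have h2V : VP P (2 : Om) := by simpa using DI.VP.nat (P := P) 2
  have hd := hXb.dup z hz h2
  have h3 : VP P (xO b (2 * z)) := by
    have e : xO b (2 * z) = (xO b z ^ 4 - a1O b * a3O b * xO b z ^ 2 - 2 * a3O b ^ 2 * xO b z) *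
        (vO b z ^ 2)⁻¹ := by
      rw [← hd, mul_assoc, mul_inv_cancel₀ (pow_ne_zero 2 hW.ne_zero), mul_one]
    rw [e]
    exact (((hV.pow 4).sub ((ha1.mul ha3.1).mul (hV.pow 2))).sub ((h2V.mul (ha3.1.pow 2)).mul hV)).mul
      (hW.pow 2).inv.1
  rcases h.2 with h4 | h4
  · exact h2 h4
  · exact h4 h3

theorem ss_two (hX : DS.S_XOm) (hD1 : DS.S_D1) (hS : DS.SS n t P) (hb : G15 b) (j : ℕ) :
    ∀ z : ℂ, (2 : ℂ) ^ j * z ∈ Lam b → IK P b z := by
  induction j with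
  | zero =>
    intro z h
    rw [pow_zero, one_mul] at h
    exact (hD1 n t P hS.gq b hb).2.1 z h
  | succ j ih =>
    intro z h
    have hz : Tor n t z := (tor_iff hb.ne).2 ⟨2 ^ (j + 1), by positivity, by exact_mod_cast h⟩
    refine ss_half hX hD1 hS hb hz (ih (2 * z) ?_)
    have e : (2 : ℂ) ^ j * (2 * z) = 2 ^ (j + 1) * z := by ring
    rw [e]
    exact h

end SS

/-! ## Algebra in the valuation ring -/

section Alg

variable {P : Ideal ZZ} {A B ξ : Om}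

/-- The polynomial of `2 X(T)`. -/
private theorem poly (h : 4 * ξ ^ 3 + (B * ξ + A) ^ 2 = 0) :
    (2 * ξ) ^ 3 + B ^ 2 / 2 * (2 * ξ) ^ 2 + 2 * (B * A) * (2 * ξ) + 2 * A ^ 2 = 0 := by
  linear_combination 2 * h

private theorem x_vp [P.IsPrime] (hA : VP P A) (hB : VP P B) (hc : VP P (B ^ 2 / 2))
    (h : 4 * ξ ^ 3 + (B * ξ + A) ^ 2 = 0) : VP P (2 * ξ) := by
  by_contra hn
  obtain ⟨h0, h1⟩ := DI.VP.not_iff.1 hn
  have hp := poly h
  set x := 2 * ξ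
  have h2V : VP P (2 : Om) := by simpa using DI.VP.nat (P := P) 2
  have e : x = -(B ^ 2 / 2 + 2 * (B * A) * x⁻¹ + 2 * A ^ 2 * (x⁻¹ * x⁻¹)) := by
    field_simp
    linear_combination 2 * hp
  apply hn
  rw [e]
  exact ((hc.add ((h2V.mul (hB.mul hA)).mul h1.vp)).add ((h2V.mul (hA.pow 2)).mul (h1.vp.mul h1.vp))).neg

/-- If `2 X(T)` is in the maximal ideal then `X(T)` has the valuation `-1/2`. -/
private theorem x_half [P.IsPrime] (hA : UP P A) (hB : MP P B) (hc : UP P (B ^ 2 / 2))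
    (h : 4 * ξ ^ 3 + (B * ξ + A) ^ 2 = 0) (hM : MP P (2 * ξ)) : UP P (2 * ξ ^ 2) := by
  have h1 : UP P (2 * ξ + B ^ 2 / 2) := DI.UP.congr hc (by rw [add_sub_cancel_right]; exact hM)
  have h2 : UP P (B * (2 * ξ) + A) := DI.UP.congr hA (by
    rw [add_sub_cancel_right]
    exact DI.MP.mul_left hB.vp hM)
  have e : 2 * ξ ^ 2 = -(A * (B * (2 * ξ) + A)) * (2 * ξ + B ^ 2 / 2)⁻¹ := by
    rw [eq_mul_inv_iff_mul_eq₀ h1.ne_zero]
    linear_combination h
  rw [e]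
  exact (hA.mul h2).neg.mul h1.inv

private theorem x_c [P.IsPrime] (h2P : MP P 2) (hA : UP P A) (hB : MP P B)
    (h : 4 * ξ ^ 3 + (B * ξ + A) ^ 2 = 0) (hU : UP P (2 * ξ)) : MP P (2 * ξ + B ^ 2 / 2) := by
  have e : 2 * ξ + B ^ 2 / 2 = 2 * (-(A * (B * (2 * ξ) + A)) * (((2 * ξ) ^ 2)⁻¹)) := by
    have h0 := hU.ne_zero
    have h1 : ξ ≠ 0 := fun h' => h0 (by rw [h', mul_zero])
    field_simp
    linear_combination h
  rw [e]
  exact DI.MP.mul_right h2P ((hA.1.mul ((hB.vp.mul hU.1).add hA.1)).neg.mul (hU.pow 2).inv.1)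

/-- Two different unit roots are impossible. -/
private theorem x_two [P.IsPrime] {ξ' : Om} (h2P : MP P 2) (hA : UP P A) (hB : MP P B)
    (hc : UP P (B ^ 2 / 2)) (h : 4 * ξ ^ 3 + (B * ξ + A) ^ 2 = 0) (h' : 4 * ξ' ^ 3 + (B * ξ' + A) ^ 2 = 0)
    (hne : ξ ≠ ξ') (hU : UP P (2 * ξ)) : ¬ UP P (2 * ξ') := by
  intro hU'
  have hm := x_c h2P hA hB h hU
  have hm' := x_c h2P hA hB h' hU'
  have hp := poly h
  have hp' := poly h'
  have hne' : 2 * ξ - 2 * ξ' ≠ 0 := by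
    intro h0
    apply hne
    have h1 : (2 : Om) * (ξ - ξ') = 0 := by linear_combination h0
    rcases mul_eq_zero.1 h1 with h2 | h2
    · exact absurd h2 two_ne_zero
    · exact sub_eq_zero.1 h2
  set x := 2 * ξ
  set y := 2 * ξ'
  set c := B ^ 2 / 2
  have hS : x ^ 2 + x * y + y ^ 2 + c * (x + y) + 2 * (B * A) = 0 := by
    apply mul_left_cancel₀ hne'
    rw [mul_zero]
    linear_combination hp - hp'
  have hc2 : MP P (c ^ 2) := by
    have e : c ^ 2 = -(x * (x + c) + y * (y + c) + ((x + c) * y - c * (y + c)) + 2 * (B * A)) := by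
      linear_combination hS
    rw [e]
    refine DI.MP.neg (((DI.MP.mul_left hU.1 hm).add (DI.MP.mul_left hU'.1 hm')).add
      ((DI.MP.mul_right hm hU'.1).sub (DI.MP.mul_left hc.1 hm')) |>.add ?_)
    exact DI.MP.mul_right h2P (hB.vp.mul hA.1)
  exact (hc.pow 2).2 hc2

/-- The step of the induction. -/
private theorem step [P.IsPrime] {ζ w : Om} (hA : UP P A) (hB : VP P B)
    (hc : UP P (B ^ 2 / 2)) (hζ : VP P (2 * ζ)) (hξ : ¬ VP P ξ) (hw : w = 4 * ξ ^ 3 + (B * ξ + A) ^ 2)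
    (h : ζ * w = ξ ^ 4 - B * A * ξ ^ 2 - 2 * A ^ 2 * ξ) : UP P (ζ * ξ⁻¹ ^ 4) := by
  obtain ⟨h0, h1⟩ := DI.VP.not_iff.1 hξ
  have h2V : VP P (2 : Om) := by simpa using DI.VP.nat (P := P) 2
  set η := ξ⁻¹ with hη
  have e : ζ * η ^ 4 * A ^ 2 = 1 - η * (B * A * η + 2 * A ^ 2 * η ^ 2 + 2 * ζ * 2 +
      2 * ζ * (B ^ 2 / 2) * η + 2 * ζ * (B * A) * η ^ 2) := by
    rw [hη]
    rw [hw] at h
    field_simp
    linear_combination h
  have hM : MP P (η * (B * A * η + 2 * A ^ 2 * η ^ 2 + 2 * ζ * 2 +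
      2 * ζ * (B ^ 2 / 2) * η + 2 * ζ * (B * A) * η ^ 2)) := by
    refine DI.MP.mul_right h1 ?_
    refine ((((?_ : VP P _).add ?_).add ?_).add ?_).add ?_
    · exact (hB.mul hA.1).mul h1.vp
    · exact (h2V.mul (hA.1.pow 2)).mul (h1.vp.pow 2)
    · exact hζ.mul h2V
    · exact (hζ.mul hc.1).mul h1.vp
    · exact (hζ.mul (hB.mul hA.1)).mul (h1.vp.pow 2)
  have hU : UP P (ζ * η ^ 4 * A ^ 2) := by
    rw [e]
    refine DI.UP.congr DI.UP.one ?_
    rw [sub_sub_cancel_left]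
    exact hM.neg
  have e2 : ζ * η ^ 4 = ζ * η ^ 4 * A ^ 2 * (A ^ 2)⁻¹ := by
    rw [mul_assoc (ζ * η ^ 4), mul_inv_cancel₀ (pow_ne_zero 2 hA.ne_zero), mul_one]
  rw [e2]
  exact hU.mul (hA.pow 2).inv

end Alg

/-! ## The points -/

section Pts

variable {n t : ℕ} [Rmf n t] {P : Ideal ZZ} {b : Ideal (OO n t)}

theorem pp_two (hO4 : S_O4) (k : ℕ) : pp n t ^ (k + 2) * b = sp (2 : OO n t) * (pp n t ^ k * b) := by
  have h := (hO4 n t).2.2.2.1
  rw [pow_add, pow_two, h]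
  ring

theorem lam_pp_two (hO4 : S_O4) (k : ℕ) {z : ℂ} :
    z ∈ Lam (pp n t ^ (k + 2) * b) ↔ 2 * z ∈ Lam (pp n t ^ k * b) := by
  rw [pp_two hO4, lam_sp, toC_two]

theorem pp_pow_tor (hO4 : S_O4) (k : ℕ) {z : ℂ} (h : z ∈ Lam (pp n t ^ k * b)) :
    (2 : ℂ) ^ k * z ∈ Lam b := by
  induction k generalizing z with
  | zero =>
    rw [pow_zero, one_mul] at h ⊢
    exact h
  | succ k ih =>
    have h1 : z ∈ Lam (pp n t ^ (k + 2) * b) := by
      have e : pp n t ^ (k + 2) * b = pp n t * (pp n t ^ (k + 1) * b) := by ring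
      rw [e]
      exact lam_mono h
    have h2 := ih ((lam_pp_two hO4 k).1 h1)
    have e : (2 : ℂ) ^ (k + 1) * z = 2 ^ k * (2 * z) := by ring
    rw [e]
    exact h2

omit [Rmf n t] in
theorem crv_two (hXb : XOm b) {T : ℂ} (hz : Tor n t T) (h : T ∉ Lam b) (h2 : 2 * T ∈ Lam b) :
    4 * xO b T ^ 3 + (a1O b * xO b T + a3O b) ^ 2 = 0 := by
  rw [← hXb.crv T hz h, (hXb.two T hz h).2 h2]
  ring

/-- `X(T)` has the valuation `-1` for `T` of order `pp`. -/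
theorem pp_one (hX : DS.S_XOm) (h1 : DS.S_E1) (h4 : S_E4a) (hL6 : S_L6) (hR : S_R2b)
    (hS : DS.SS n t P) (hb : G15 b) {T : ℂ} (hT : T ∈ Lam (pp n t * b)) (hT' : T ∉ Lam b) :
    UP P (2 * xO b T) := by
  have := hS.ab.1.1
  have hP := hS.ab
  obtain ⟨-, hA, -⟩ := hS.gq.2 b hb
  have hB := hS.a1 b hb
  have hc := hR n t P hP b hb
  have h2T : 2 * T ∈ Lam b := (hL6 n t b hb.ne).2.2.1 T hT
  have htor : Tor n t T := (tor_iff hb.ne).2 ⟨2, two_pos, by exact_mod_cast h2T⟩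
  have hcrv := crv_two (hX n t b hb) htor hT' h2T
  refine ⟨x_vp hA.1 hB.vp hc.1 hcrv, fun hM => ?_⟩
  have hU := x_half hA hB hc hcrv hM
  have hfx : Fx n t P (a1O b * xO b T + a3O b) :=
    ((fx_a1 h4 hP hb).mul (fx_T hX h1 h4 hL6 hP hb hT hT')).add (fx_a3 h4 hP hb)
  set ξ := xO b T
  have hy : MP P (a1O b * ξ + a3O b) := by
    refine DI.MP.of_pow (n := 4) ?_
    have e : (a1O b * ξ + a3O b) ^ 4 = 2 * (2 * ξ ^ 2) ^ 3 := by
      have e1 : (a1O b * ξ + a3O b) ^ 2 = -(4 * ξ ^ 3) := by linear_combination hcrv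
      have e2 : (a1O b * ξ + a3O b) ^ 4 = ((a1O b * ξ + a3O b) ^ 2) ^ 2 := by ring
      rw [e2, e1]
      ring
    rw [e]
    exact DI.MP.mul_right hP.2 (hU.1.pow 3)
  have hV := (half (n := n) (t := t) hP hfx hy).pow 2
  have e1 : (a1O b * ξ + a3O b) ^ 2 = -(4 * ξ ^ 3) := by linear_combination hcrv
  rw [e1] at hV
  have e2 : (2 * ξ ^ 2) ^ 3 = 2 * (-(4 * ξ ^ 3) / 2) ^ 2 := by ring
  have h5 : MP P ((2 * ξ ^ 2) ^ 3) := by
    rw [e2]
    exact DI.MP.mul_right hP.2 hV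
  exact (hU.pow 3).2 h5

/-- `X(T)` has the valuation `-1/2` for `T` of exact order two. -/
theorem pt_sq (hX : DS.S_XOm) (h1 : DS.S_E1) (h4 : S_E4a) (hL6 : S_L6) (hR : S_R2b)
    (hS : DS.SS n t P) (hb : G15 b) {T : ℂ} (h2T : 2 * T ∈ Lam b) (hT' : T ∉ Lam (pp n t * b)) :
    UP P (2 * xO b T ^ 2) := by
  have := hS.ab.1.1
  have hP := hS.ab
  have hXb := hX n t b hb
  obtain ⟨-, hA, -⟩ := hS.gq.2 b hb
  have hB := hS.a1 b hb
  have hc := hR n t P hP b hb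
  have hTb : T ∉ Lam b := fun h => hT' (lam_mono h)
  have htor : Tor n t T := (tor_iff hb.ne).2 ⟨2, two_pos, by exact_mod_cast h2T⟩
  have hcrv := crv_two hXb htor hTb h2T
  obtain ⟨⟨T0, hT0, hT0'⟩, -, l3, -⟩ := hL6 n t b hb.ne
  have h2T0 := l3 T0 hT0
  have htor0 : Tor n t T0 := (tor_iff hb.ne).2 ⟨2, two_pos, by exact_mod_cast h2T0⟩
  have hcrv0 := crv_two hXb htor0 hT0' h2T0
  have hne : xO b T0 ≠ xO b T := by
    intro h
    rcases hXb.inj T0 T htor0 htor hT0' hTb h with h5 | h5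
    · apply hT'
      have e : T = T0 - (T0 - T) := by ring
      rw [e]
      exact lam_sub hT0 (lam_mono h5)
    · apply hT'
      have e : T = (T0 + T) - T0 := by ring
      rw [e]
      exact lam_sub (lam_mono h5) hT0
  have hnU := x_two hP.2 hA hB hc hcrv0 hcrv hne (pp_one hX h1 h4 hL6 hR hS hb hT0 hT0')
  have hV := x_vp hA.1 hB.vp hc.1 hcrv
  refine x_half hA hB hc hcrv ?_
  by_contra hM
  exact hnU ⟨hV, hM⟩

private theorem two_pow_vp [P.IsPrime] {w : Om} (k : ℕ) (h : UP P (2 * w ^ 2 ^ k)) : VP P (2 * w) := by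
  refine DI.VP.of_pow (n := 2 ^ k) (by positivity) ?_
  have h2V : VP P (2 : Om) := by simpa using DI.VP.nat (P := P) 2
  have hk : 2 ^ k = (2 ^ k - 1) + 1 := by
    have : 0 < 2 ^ k := by positivity
    omega
  have e : (2 * w) ^ 2 ^ k = 2 ^ (2 ^ k - 1) * (2 * w ^ 2 ^ k) := by
    rw [mul_pow, ← mul_assoc, ← pow_succ, ← hk]
  rw [e]
  exact (h2V.pow _).mul h.1

/-- The valuations of `X` at the points of exact order `pp ^ (k + 1)`. -/
theorem pp_val (hO4 : S_O4) (hX : DS.S_XOm) (hD1 : DS.S_D1) (h1 : DS.S_E1) (h4 : S_E4a) (hL6 : S_L6)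
    (hR : S_R2b) (hS : DS.SS n t P) (hb : G15 b) (k : ℕ) : ∀ d : ℂ, d ∈ Lam (pp n t ^ (k + 1) * b) →
      d ∉ Lam (pp n t ^ k * b) → UP P (2 * xO b d ^ 2 ^ k) := by
  have := hS.ab.1.1
  induction k using Nat.twoStepInduction with
  | zero =>
    intro d hd hd'
    rw [zero_add, pow_one] at hd
    rw [pow_zero, one_mul] at hd'
    rw [pow_zero, pow_one]
    exact pp_one hX h1 h4 hL6 hR hS hb hd hd'
  | one =>
    intro d hd hd'
    rw [pow_one] at hd' ⊢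
    have h2 := (lam_pp_two hO4 0).1 (by rwa [zero_add])
    rw [pow_zero, one_mul] at h2
    exact pt_sq hX h1 h4 hL6 hR hS hb h2 hd'
  | more k ih _ =>
    intro d hd hd'
    have e3 : k + 2 + 1 = (k + 1) + 2 := by ring
    rw [e3, lam_pp_two hO4] at hd
    rw [lam_pp_two hO4] at hd'
    have hU := ih (2 * d) hd hd'
    have hXb := hX n t b hb
    obtain ⟨ha1, hA, -⟩ := hS.gq.2 b hb
    have hc := hR n t P hS.ab b hb
    have h2d : 2 * d ∉ Lam b := fun h => hd' (lam_mono h)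
    have hdl : d ∉ Lam b := fun h => h2d (by exact_mod_cast lam_nat 2 h)
    have hpow := pp_pow_tor hO4 (k + 1) hd
    have hpow' : (2 : ℂ) ^ (k + 2) * d ∈ Lam b := by
      have e : (2 : ℂ) ^ (k + 2) * d = 2 ^ (k + 1) * (2 * d) := by ring
      rw [e]
      exact hpow
    have hIK := ss_two hX hD1 hS hb (k + 2) d hpow'
    have hn : ¬ VP P (xO b d) := hIK.2.resolve_left hdl
    have hst := step hA ha1 hc (two_pow_vp k hU) hn (hXb.crv d hIK.1 hdl) (hXb.dup d hIK.1 h2d)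
    obtain ⟨h0, -⟩ := DI.VP.not_iff.1 hn
    have h00 : xO b (2 * d) ≠ 0 := by
      intro h
      rw [h, zero_mul] at hst
      exact hst.ne_zero rfl
    have e : 2 * xO b d ^ 2 ^ (k + 2) = (2 * xO b (2 * d) ^ 2 ^ k) *
        ((xO b (2 * d) * (xO b d)⁻¹ ^ 4) ^ 2 ^ k)⁻¹ := by
      have e4 : xO b d ^ 2 ^ (k + 2) = (xO b d ^ 4) ^ 2 ^ k := by
        rw [← pow_mul]
        congr 1
        ring
      rw [e4, mul_pow, inv_pow, inv_pow, mul_inv, inv_inv]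
      have h5 : xO b (2 * d) ^ 2 ^ k ≠ 0 := pow_ne_zero _ h00
      field_simp
    rw [e]
    exact hU.mul (hst.pow _).inv

end Pts

theorem sD10 (hO4 : S_O4) (hL6 : S_L6) (hX : DS.S_XOm) (hD1 : DS.S_D1) (h1 : DS.S_E1) (h4 : S_E4a)
    (hR : S_R2b) (hSS : S_SS) : S_D10 := by
  intro n t _ P hP b hb
  have := hP.1.1
  have hS := hSS n t P hP
  have hXb := hX n t b hb
  obtain ⟨-, hA, -⟩ := hS.gq.2 b hb
  have hc := hR n t P hP b hb
  refine ⟨fun j z d hz hzK hd hd' => ?_, fun T hT hT' => pp_one hX h1 h4 hL6 hR hS hb hT hT'⟩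
  obtain ⟨D1a, D1l, -, -, -, -, -⟩ := hD1 n t P hS.gq b hb
  -- the point `d' = d / 2`
  obtain ⟨d', rfl⟩ : ∃ d' : ℂ, d = 2 * d' := ⟨d / 2, by ring⟩
  rw [← lam_pp_two hO4] at hd hd'
  have hU := pp_val hO4 hX hD1 h1 h4 hL6 hR hS hb (j + 2) d' hd hd'
  have hpow : (2 : ℂ) ^ (j + 3) * d' ∈ Lam b := pp_pow_tor hO4 (j + 3) hd
  have hK : IK P b d' := ss_two hX hD1 hS hb (j + 3) d' hpow
  have hK2 : IK P b (2 * d') := by
    have h := D1a d' d' hK hK
    rwa [← two_mul] at h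
  have hdl : d' ∉ Lam b := fun h => hd' (lam_mono h)
  have hn : ¬ VP P (xO b d') := hK.2.resolve_left hdl
  obtain ⟨h0, hη⟩ := DI.VP.not_iff.1 hn
  have hneg : ∀ x : ℂ, IK P b x → IK P b (-x) := fun x hx => by
    refine ⟨tor_neg hx.1, ?_⟩
    rcases hx.2 with h | h
    · exact Or.inl (lam_neg h)
    · right
      rwa [(hXb.neg x hx.1).1]
  have hnot : ∀ x y : ℂ, ¬ IK P b x → IK P b y → ¬ IK P b (x + y) := by
    intro x y hx hy h
    apply hx
    have h3 := D1a _ _ h (hneg y hy)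
    rwa [add_neg_cancel_right] at h3
  have hz' : Tor n t (z + d') := tor_add hz hK.1
  have hzK' : ¬ IK P b (z + d') := hnot z d' hzK hK
  have hzK2 : ¬ IK P b (z + 2 * d') := hnot z (2 * d') hzK hK2
  have hl : ∀ x : ℂ, ¬ IK P b x → x ∉ Lam b := fun x hx h => hx (D1l x h)
  have e1 : z + d' + d' = z + 2 * d' := by ring
  have e2 : z + d' - d' = z := by ring
  have hk := hXb.ksb (z + d') d' hz' hK.1 (hl _ hzK') hdl (by rw [e1]; exact hl _ hzK2)
    (by rw [e2]; exact hl _ hzK)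
  rw [e1, e2] at hk
  have hWz := ss_vo hS hb hz' hzK'
  have hxz : VP P (xO b (z + d')) := by
    by_contra h
    exact hzK' ⟨hz', Or.inr h⟩
  have hcrv := hXb.crv d' hK.1 hdl
  set D := xO b (z + 2 * d') - xO b z with hD
  set ξ := xO b d' with hξ
  set B := a1O b with hB
  set A := a3O b with hAd
  -- `2 ξ ^ 2` is in the maximal ideal
  have h2V : VP P (2 : Om) := by simpa using DI.VP.nat (P := P) 2
  have hq : MP P (2 * ξ ^ 2) := by
    refine DI.MP.of_pow (n := 2 ^ (j + 1)) ?_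
    have hk2 : 2 ^ (j + 1) = (2 ^ (j + 1) - 2) + 1 + 1 := by
      have h5 : 2 ≤ 2 ^ (j + 1) := by
        rw [pow_succ]
        have : 0 < 2 ^ j := by positivity
        omega
      omega
    have e : (2 * ξ ^ 2) ^ 2 ^ (j + 1) = 2 * (2 ^ (2 ^ (j + 1) - 2) * (2 * ξ ^ 2 ^ (j + 2))) := by
      have e3 : (2 : Om) ^ 2 ^ (j + 1) = 2 ^ (2 ^ (j + 1) - 2) * 2 * 2 := by
        rw [← pow_succ, ← pow_succ, ← hk2]
      rw [mul_pow, ← pow_mul, e3]
      have e4 : 2 * 2 ^ (j + 1) = 2 ^ (j + 2) := by ring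
      rw [e4]
      ring
    rw [e]
    exact DI.MP.mul_right hP.2 ((h2V.pow _).mul hU.1)
  have hBx : MP P (B * ξ) := by
    refine DI.MP.of_pow (n := 2) ?_
    have e : (B * ξ) ^ 2 = B ^ 2 / 2 * (2 * ξ ^ 2) := by ring
    rw [e]
    exact DI.MP.mul_left hc.1 hq
  have h4x : MP P (4 * ξ ^ 3) := by
    refine DI.MP.of_pow (n := 2) ?_
    have e : (4 * ξ ^ 3) ^ 2 = 2 * (2 * ξ ^ 2) ^ 3 := by ring
    rw [e]
    exact DI.MP.mul_right hP.2 (hq.vp.pow 3)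
  have hWd : UP P (vO b d') := by
    have h5 : UP P (B * ξ + A) := DI.UP.congr hA (by rw [add_sub_cancel_right]; exact hBx)
    refine DI.UP.of_pow (n := 2) two_pos ?_
    rw [hcrv]
    exact DI.UP.congr (h5.pow 2) (by rw [add_sub_cancel_right]; exact h4x)
  have hu : UP P (xO b (z + d') * ξ⁻¹ - 1) := by
    refine DI.UP.congr DI.UP.one.neg ?_
    have e : xO b (z + d') * ξ⁻¹ - 1 - -1 = xO b (z + d') * ξ⁻¹ := by ring
    rw [e]
    exact DI.MP.mul_left hxz hη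
  have hDe : D * ξ ^ 2 = -(vO b (z + d') * vO b d') * ((xO b (z + d') * ξ⁻¹ - 1) ^ 2)⁻¹ := by
    rw [eq_mul_inv_iff_mul_eq₀ (pow_ne_zero 2 hu.ne_zero), ← hk]
    field_simp
  have hDU : UP P (D * ξ ^ 2) := by
    rw [hDe]
    exact (hWz.mul hWd).neg.mul (hu.pow 2).inv
  have efin : D ^ 2 ^ (j + 1) / 2 = (D * ξ ^ 2) ^ 2 ^ (j + 1) * (2 * ξ ^ 2 ^ (j + 2))⁻¹ := by
    have e4 : ξ ^ 2 ^ (j + 2) = (ξ ^ 2) ^ 2 ^ (j + 1) := by
      rw [← pow_mul]
      congr 1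
      ring
    rw [e4, mul_pow]
    have h5 : (ξ ^ 2) ^ 2 ^ (j + 1) ≠ 0 := pow_ne_zero _ (pow_ne_zero 2 h0)
    field_simp
  rw [efin]
  exact (hDU.pow _).mul hU.inv

end Pool.Agent.DR
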