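import Pool.Agent.Lib.DR.D.KrP

/-!
# Theorem DR: `S_D2` (helper46)
-/

set_option autoImplicit false

open scoped Pointwise nonZeroDivisors

noncomputable section

namespace Pool.Agent.DR

open Pool.Agent.MuZ Pool.Agent.FW Pool.Agent.DN NumberField IsDedekindDomain
open Pool.Agent.DI (io ofC io_inj exists_io io_ofC ofC_io VP MP UP TP ex)

/-- `X(T)` has the valuation `-1` for `T` of order `pp`. -/
def S_2T : Prop :=
  ∀ (n t : ℕ) [Rmf n t] (P : Ideal ZZ), Ab2 P → ∀ b : Ideal (OO n t), G15 b → ∀ T ∈ Lam (pp n t * b),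
    T ∉ Lam b → UP P (2 * xO b T)

section

variable {n t : ℕ} [SqN n t] {Γ : Type} [LinearOrderedCommGroupWithZero Γ] {v : Valuation ℂ Γ}

/-- The points `j/15` are not in the kernel. -/
theorem not15 (hv : v 2 < 1) {b : Ideal (OO n t)} (hG : G15 b) {e s : ℂ} (hi : ICd v b e s) {j : ℤ}
    (hj : ¬ (15 : ℤ) ∣ j) : ¬ Kr v (Lam b) (xx b e s) ((j : ℂ) / 15) := by
  have hK := sVCrd n t Γ v b e s hG.ne hi
  have hpt := aPt n t b hG.ne hG.cop
  refine odd_not hv hK (fun h' => hj ((hpt j).1 h')) (N := 15) (by decide) ?_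
  have : ((15 : ℕ) : ℂ) * ((j : ℂ) / 15) = j := by
    push_cast
    ring
  rw [this]
  exact fun u _ => ⟨u * (j : OO n t), by rw [toC_mul, toC_int]⟩

/-- `X(2/5)` modulo `P`. -/
theorem x25 (hv : v 2 < 1) {b : Ideal (OO n t)} (hG : G15 b) (h1 : v (A1 b) < 1) (h3 : v (A3 b) = 1)
    (hg : GCd v b (wpC b (1 / 3)) (fr b ^ 2)) : v (XC b (2 / 5) - A3 b ^ 2) < 1 := by
  have hb := hG.ne
  have hK := sVCrd n t Γ v b _ _ hb hg.toICd
  obtain ⟨e2, e4, e6, e8, es, -⟩ := XC_c hG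
  have hx5 : XC b (1 / 5) = A3 b := ((aB1 n t b hG.ne).2.2.2.2.2 hG.cop).2.2.2.2.2.1
  have n2 : ¬ Kr v (Lam b) (xx b (wpC b (1 / 3)) (fr b ^ 2)) (2 / 5) := by
    have := not15 hv hG hg.toICd (j := 6) (by decide)
    have e1 : ((6 : ℤ) : ℂ) / 15 = 2 / 5 := by norm_num
    rwa [e1] at this
  have hx : v (XC b (2 / 5)) ≤ 1 := not_lt.1 fun h => n2 (Or.inr h)
  have e0 : (1 / 5 : ℂ) + 1 / 5 = 2 / 5 := by norm_num
  have hd := (hK.dup (1 / 5) (by rw [e0]; exact fun h => n2 (Or.inl h))).2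
  rw [e0, xx_XC, xx_XC, hx5, e2, e4, e6, e8] at hd
  have key : (XC b (2 / 5) - A3 b ^ 2) * A3 b ^ 2 = A1 b * (-(A3 b ^ 3) - XC b (2 / 5) * (A1 b * A3 b ^ 2 +
      2 * A3 b ^ 2)) + 2 * (-(A3 b ^ 3) - 2 * (XC b (2 / 5) * A3 b ^ 3)) := by
    linear_combination hd
  have h3' : v (A3 b ^ 2) = 1 := by rw [v.map_pow, h3, one_pow]
  have : v ((XC b (2 / 5) - A3 b ^ 2) * A3 b ^ 2) < 1 := by
    rw [key]
    refine madd (mmulr h1 ?_) (mmulr hv ?_)
    · exact vsub (vneg (vpow h3.le 3)) (vmul hx (vadd (vmul h1.le h3'.le) (vmul (vof v 2) h3'.le)))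
    · exact vsub (vneg (vpow h3.le 3)) (vmul (vof v 2) (vmul hx (vpow h3.le 3)))
  rwa [v.map_mul, h3', mul_one] at this

end

theorem pp_ne' {n t : ℕ} [Rmf n t] (hO4 : S_O4) : pp n t ≠ ⊥ := by
  intro h
  have h1 := (hO4 n t).2.2.1
  rw [((aO2 n t).2.2.2.2.2.1 (pp n t)).2 h] at h1
  norm_num at h1

theorem G15_pp {n t : ℕ} [Rmf n t] (hO4 : S_O4) {b : Ideal (OO n t)} (hG : G15 b) : G15 (pp n t * b) := by
  refine ⟨mul_ne_zero (pp_ne' hO4) hG.ne, ((aO6 n t).1 15 _ b).2 ⟨?_, hG.cop⟩⟩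
  refine ((aO6 n t).2.2.1 15 _ (by norm_num)).2 ?_
  rw [(hO4 n t).2.2.1]
  norm_num

/-- The isogeny `pp` above two. -/
theorem pp_main (R1 : DS.S_R1) (hO4 : S_O4) (hL6 : S_L6) (h2T : S_2T) {n t : ℕ} [Rmf n t] {P : Ideal ZZ}
    (hP : Ab2 P) {V : ValuationSubring ℂ} (hV : VQ P V) {b : Ideal (OO n t)} (hG : G15 b) :
    V.valuation (fr (pp n t * b) ^ 2 / fr b ^ 2 / 2) = 1 ∧ V.valuation (A3 (pp n t * b) - A3 b ^ 2) < 1 ∧
    ∀ z : ℂ, ¬ Kr V.valuation (Lam b) (xx b (wpC b (1 / 3)) (fr b ^ 2)) z → z ∉ Lam (pp n t * b) ∧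
      V.valuation (XC (pp n t * b) z) ≤ 1 ∧ V.valuation (XC (pp n t * b) z - XC b z ^ 2) < 1 := by
  have hv := hV.two_lt hP.2
  have hb := hG.ne
  have hG' := G15_pp hO4 hG
  have hpp := pp_ne' (n := n) (t := t) hO4
  obtain ⟨h3, h1, -, hg⟩ := r_good hv hG
  obtain ⟨h3', h1', -, hg'⟩ := r_good hv hG'
  obtain ⟨⟨T, hTa, hT⟩, l2, l3, -⟩ := hL6 n t b hb
  have h2Tm := l3 T hTa
  have huni : ∀ w ∈ Lam (pp n t * b), w ∈ Lam b ∨ w - T ∈ Lam b := by
    intro w hw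
    by_cases h : w ∈ Lam b
    · exact Or.inl h
    · exact Or.inr (l2 w hw T hTa h hT)
  have hTt : Tor n t T := (tor_iff hb).2 ⟨2, two_pos, by exact_mod_cast h2Tm⟩
  have h2X : V.valuation (2 * xx b (wpC b (1 / 3)) (fr b ^ 2) T) = 1 := by
    have := (hV.eq _).2 (h2T n t P hP b hG T hTa hT)
    rwa [map_mul, map_ofNat, DS.io_xO R1 hG hTt] at this
  obtain ⟨e2, e4, e6, e8, es, -⟩ := XC_c hG
  obtain ⟨-, -, -, -, es', -⟩ := XC_c hG'
  have h4 : V.valuation (c4 b (wpC b (1 / 3)) (fr b ^ 2)) < 1 := by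
    rw [e4]
    exact mmulr h1 h3.le
  have hx3 : XC b (1 / 3) = 0 := ((aB1 n t b hG.ne).2.2.2.2.2 hG.cop).2.2.2.2.1
  have hx3' : XC (pp n t * b) (1 / 3) = 0 := ((aB1 n t _ hG'.ne).2.2.2.2.2 hG'.cop).2.2.2.2.1
  have hx5 : XC b (1 / 5) = A3 b := ((aB1 n t b hG.ne).2.2.2.2.2 hG.cop).2.2.2.2.2.1
  have hx5' : XC (pp n t * b) (1 / 5) = A3 (pp n t * b) :=
    ((aB1 n t _ hG'.ne).2.2.2.2.2 hG'.cop).2.2.2.2.2.1
  have n3 : ¬ Kr V.valuation (Lam b) (xx b (wpC b (1 / 3)) (fr b ^ 2)) (1 / 3) := by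
    have := not15 hv hG hg.toICd (j := 5) (by decide)
    have e1 : ((5 : ℤ) : ℂ) / 15 = 1 / 3 := by norm_num
    rwa [e1] at this
  have n5 : ¬ Kr V.valuation (Lam b) (xx b (wpC b (1 / 3)) (fr b ^ 2)) (1 / 5) := by
    have := not15 hv hG hg.toICd (j := 3) (by decide)
    have e1 : ((3 : ℤ) : ℂ) / 15 = 1 / 5 := by norm_num
    rwa [e1] at this
  have n25 : ¬ Kr V.valuation (Lam b) (xx b (wpC b (1 / 3)) (fr b ^ 2)) (2 / 5) := by
    have := not15 hv hG hg.toICd (j := 6) (by decide)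
    have e1 : ((6 : ℤ) : ℂ) / 15 = 2 / 5 := by norm_num
    rwa [e1] at this
  have n25' : ¬ Kr V.valuation (Lam (pp n t * b)) (xx (pp n t * b) (wpC (pp n t * b) (1 / 3))
      (fr (pp n t * b) ^ 2)) (2 / 5) := by
    have := not15 hv hG' hg'.toICd (j := 6) (by decide)
    have e1 : ((6 : ℤ) : ℂ) / 15 = 2 / 5 := by norm_num
    rwa [e1] at this
  set ρ := fr (pp n t * b) ^ 2 / fr b ^ 2 with hρ
  set X := xx b (wpC b (1 / 3)) (fr b ^ 2) T with hX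
  set u := -ρ * X with hu
  have key : ∀ z : ℂ, ¬ Kr V.valuation (Lam b) (xx b (wpC b (1 / 3)) (fr b ^ 2)) z →
      V.valuation (u * XC (pp n t * b) z - XC b z ^ 2) < 1 := by
    intro z hz
    have h := iso_two (e' := wpC (pp n t * b) (1 / 3)) hpp hb hg.toICd es' h2Tm hT hTa huni h2X hv h4 hz n3
    rw [xx_XC b z, xx_XC b (1 / 3), xx_XC (pp n t * b) z, xx_XC (pp n t * b) (1 / 3), hx3, hx3', sub_zero,
      zero_pow two_ne_zero, sub_zero] at h
    exact h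
  have k5 := key _ n5
  rw [hx5, hx5'] at k5
  have a2 : V.valuation (A3 b ^ 2) = 1 := by rw [map_pow, h3, one_pow]
  have u1 : V.valuation u = 1 := by
    have h5 := vcongr k5 a2
    rwa [map_mul, h3', mul_one] at h5
  have k25 := key _ n25
  have x1 := x25 hv hG h1 h3 hg
  have x1' := x25 hv hG' h1' h3' hg'
  have m1 : V.valuation (XC b (2 / 5)) ≤ 1 := not_lt.1 fun h => n25 (Or.inr h)
  have u2 : V.valuation (u - 1) < 1 := by
    have e1 : (u - 1) * (u * A3 (pp n t * b) ^ 2) = (u * A3 (pp n t * b) - A3 b ^ 2) *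
        (u * A3 (pp n t * b) + A3 b ^ 2) - ((u * XC (pp n t * b) (2 / 5) - XC b (2 / 5) ^ 2) +
          (XC b (2 / 5) - A3 b ^ 2) * (XC b (2 / 5) + A3 b ^ 2) -
            u * (XC (pp n t * b) (2 / 5) - A3 (pp n t * b) ^ 2)) := by ring
    have e2 : V.valuation ((u - 1) * (u * A3 (pp n t * b) ^ 2)) < 1 := by
      rw [e1]
      refine msub (mmulr k5 (vadd (vmul u1.le h3'.le) a2.le)) (msub (madd k25 (mmulr x1 (vadd m1 a2.le)))
        (mmul u1.le x1'))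
    rwa [map_mul, map_mul, u1, map_pow, h3', one_pow, mul_one, mul_one] at e2
  refine ⟨?_, ?_, ?_⟩
  · have hX0 : X ≠ 0 := by
      intro h
      rw [h, mul_zero, map_zero] at h2X
      exact zero_ne_one h2X
    have e1 : ρ / 2 = -u / (2 * X) := by
      rw [hu]
      field_simp
    rw [e1, map_div₀, V.valuation.map_neg, u1, h2X, div_one]
  · have e1 : A3 (pp n t * b) - A3 b ^ 2 = (u * A3 (pp n t * b) - A3 b ^ 2) - (u - 1) * A3 (pp n t * b) := by ring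
    rw [e1]
    exact msub k5 (mmulr u2 h3'.le)
  · intro z hz
    have hk := key z hz
    have c1 : V.valuation (XC b z) ≤ 1 := not_lt.1 fun h => hz (Or.inr h)
    have c2 : V.valuation (XC (pp n t * b) z) ≤ 1 := by
      have h5 := vcongr_le hk (vpow c1 2)
      rwa [map_mul, u1, one_mul] at h5
    refine ⟨?_, c2, ?_⟩
    · intro h
      rcases huni z h with h' | h'
      · exact hz (Or.inl h')
      · have hK := sVCrd n t _ V.valuation b _ _ hb hg.toICd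
        refine hz ((hK.kr_congr h').2 (Or.inr ?_))
        by_contra hc
        have : V.valuation (2 * X) < 1 := mmulr hv (not_lt.1 hc)
        rw [h2X] at this
        exact lt_irrefl _ this
    · have e1 : XC (pp n t * b) z - XC b z ^ 2 = (u * XC (pp n t * b) z - XC b z ^ 2) -
        (u - 1) * XC (pp n t * b) z := by ring
      rw [e1]
      exact msub hk (mmulr u2 c2)

theorem sD2 (R1 : DS.S_R1) (hX : DS.S_XOm) (D1 : DS.S_D1) (hO4 : S_O4) (hL6 : S_L6) (h2T : S_2T) : S_D2 := by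
  intro n t _ P hP b hG
  haveI := hP.1.1
  have hQ : GQ n t P := (sR2a R1 n t P hP).1
  obtain ⟨V, hV⟩ := exists_VQ hP.1
  have hv := hV.two_lt hP.2
  have hb := hG.ne
  have hG' := G15_pp hO4 hG
  obtain ⟨h3, h1, -, hg⟩ := r_good hv hG
  obtain ⟨m1, m2, m3⟩ := pp_main R1 hO4 hL6 h2T hP hV hG
  have hS := sSS hX (sR2a R1) (sRu R1) n t P hP
  have hd1 := D1 n t P hQ b hG
  have hQp : ∀ z : ℂ, Tor n t z → ¬ Qp P b z → ¬ IK P b z := fun z _ h h' => h (hd1.2.2.2.2.1 z h')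
  have hnk : ∀ {z : ℂ}, Tor n t z → ¬ IK P b z →
      ¬ Kr V.valuation (Lam b) (xx b (wpC b (1 / 3)) (fr b ^ 2)) z := fun ht h h' =>
    h ((hV.ikS R1 hG).2 ⟨ht, h'⟩)
  have io3 : io (a3O b) = A3 b := ((R1.1 n t).1 b hG).2.1
  have io3' : io (a3O (pp n t * b)) = A3 (pp n t * b) := ((R1.1 n t).1 _ hG').2.1
  refine ⟨?_, ?_, ?_, ?_, hQp, ?_, ?_, ?_⟩
  · intro z j hj
    rw [hV.ikS R1 hG]
    refine ⟨(tor_iff hb).2 ⟨2 ^ j, by positivity, by exact_mod_cast hj⟩, ?_⟩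
    refine DN.ss_two hv hb hg ?_ j z hj
    rw [(XC_c hG).1]
    exact mpow h1 two_ne_zero
  · intro z hz hzk
    obtain ⟨z1, z2, z3⟩ := m3 z (hnk hz hzk)
    refine ⟨?_, ?_⟩
    · rw [hV.ikS R1 hG']
      rintro ⟨-, h | h⟩
      · exact z1 h
      · exact absurd z2 (not_le.2 h)
    · refine (hV.lt _).1 ?_
      rw [map_sub, map_pow, DS.io_xO R1 hG hz, DS.io_xO R1 hG' hz, xx_XC, xx_XC]
      exact z3
  · refine (hV.lt _).1 ?_
    rw [map_sub, map_pow, io3, io3']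
    exact m2
  · intro z hz hzk
    have hvx : VP P (xO b z) := by
      by_contra h
      exact hzk ⟨hz, Or.inr h⟩
    have hvo := hS.vo b hG z hz hzk
    refine ⟨hvx, ?_, hvo⟩
    have := (hV.lt _).2 hvo
    refine (hV.eq _).1 ?_
    rw [map_sub, io3] at this
    exact vcongr this h3
  · intro z z' hz hz' hzk hzk' hq1 hq2
    have hnk1 := hnk hz hzk
    have hnk2 := hnk hz' hzk'
    refine (hV.eq _).1 ?_
    have c1 : V.valuation (xx b (wpC b (1 / 3)) (fr b ^ 2) z) ≤ 1 := not_lt.1 fun h => hnk1 (Or.inr h)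
    have c2 : V.valuation (xx b (wpC b (1 / 3)) (fr b ^ 2) z') ≤ 1 := not_lt.1 fun h => hnk2 (Or.inr h)
    rw [map_sub, DS.io_xO R1 hG hz, DS.io_xO R1 hG hz']
    refine le_antisymm (vsub c1 c2) (not_lt.1 fun hlt => ?_)
    have hmp : MP P (xO b z - xO b z') := (hV.xsubS R1 hG hz hz').2 hlt
    rcases hd1.2.2.2.2.2.2 z z' hz hz' hzk hzk' hmp with h | h
    · exact hQp _ (tor_add hz hz') hq1 h
    · exact hQp _ (tor_sub hz hz') hq2 h
  · exact fun a ha ha2 ha15 => sRu R1 n t P hP b hG a ha ha2 ha15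
  · refine (hV.eq _).1 ?_
    rw [map_div₀, map_pow, map_ofNat, (((R1.1 n t).1 b hG).2.2.2 (pp n t * b) hG').1, div_pow]
    exact m1

end Pool.Agent.DR
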