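import Pool.Agent.Lib.DR.D.R2a

/-!
# Theorem DR: the isogeny `pp` modulo `P` (helper46)
-/

set_option autoImplicit false

open scoped Pointwise nonZeroDivisors

noncomputable section

namespace Pool.Agent.DR

open Pool.Agent.MuZ Pool.Agent.FW Pool.Agent.DN NumberField IsDedekindDomain
open Pool.Agent.DI (io ofC io_inj exists_io io_ofC ofC_io VP MP UP TP ex)

/-- A second point of order two. -/
theorem ex_ord2' {n t : ℕ} [SqN n t] {b : Ideal (OO n t)} (hb : b ≠ ⊥) {T : ℂ} (h1 : 2 * T ∈ Lam b)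
    (h2 : T ∉ Lam b) : ∃ T' : ℂ, Ord2 b T T' := by
  obtain ⟨U, U', hU⟩ := ex_ord2 hb
  by_cases h : T - U ∈ Lam b
  · refine ⟨U', h1, h2, hU.t3, hU.t4, fun h' => hU.t5 ?_⟩
    have : U - U' = (T - U') - (T - U) := by ring
    rw [this]
    exact lam_sub h' h
  · exact ⟨U, h1, h2, hU.t1, hU.t2, h⟩

section

variable {n t : ℕ} [SqN n t] {Γ : Type} [LinearOrderedCommGroupWithZero Γ] {v : Valuation ℂ Γ}

/-- The isogeny with kernel `{0, T}`: `-(s'/s) X0 (x'(z) - x'(z')) ≡ x(z)² - x(z')²`. -/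
theorem iso_two {a b : Ideal (OO n t)} (ha : a ≠ ⊥) (hb : b ≠ ⊥) {e s e' s' : ℂ} (hi : ICd v b e s)
    (hs' : s' ≠ 0) {T : ℂ} (h2T : 2 * T ∈ Lam b) (hT : T ∉ Lam b) (hTa : T ∈ Lam (a * b))
    (huni : ∀ w ∈ Lam (a * b), w ∈ Lam b ∨ w - T ∈ Lam b) (h2X : v (2 * xx b e s T) = 1) (hv : v 2 < 1)
    (h4 : v (c4 b e s) < 1) {z z' : ℂ} (hz : ¬ Kr v (Lam b) (xx b e s) z)
    (hz' : ¬ Kr v (Lam b) (xx b e s) z') :
    v (-(s' / s) * xx b e s T * (xx (a * b) e' s' z - xx (a * b) e' s' z') -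
      (xx b e s z ^ 2 - xx b e s z' ^ 2)) < 1 := by
  have hK := sVCrd n t Γ v b e s hb hi
  obtain ⟨T', hO⟩ := ex_ord2' hb h2T hT
  have hs := hi.ne
  set X := xx b e s T with hX
  have hX1 : 1 < v X := by
    by_contra hc
    have : v (2 * X) < 1 := mmulr hv (not_lt.1 hc)
    rw [h2X] at this
    exact lt_irrefl _ this
  have hX0 : X ≠ 0 := ne_zero_of_lt hX1
  have hXi : v X⁻¹ < 1 := inv_lt hX1
  have hTk : Kr v (Lam b) (xx b e s) T := Or.inr hX1
  have c1 : v (xx b e s z) ≤ 1 := not_lt.1 fun h' => hz (Or.inr h')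
  have c1' : v (xx b e s z') ≤ 1 := not_lt.1 fun h' => hz' (Or.inr h')
  have notL : ∀ {y : ℂ}, ¬ Kr v (Lam b) (xx b e s) y → y ∉ Lam b ∧ y + T ∉ Lam b ∧ y ∉ Lam (a * b) := by
    intro y hy
    refine ⟨fun h => hy (Or.inl h), fun h => hy ?_, fun h => ?_⟩
    · have := hK.kr_sub (Or.inl h : Kr v (Lam b) (xx b e s) (y + T)) hTk
      rwa [add_sub_cancel_right] at this
    · rcases huni y h with h' | h'
      · exact hy (Or.inl h')
      · exact hy ((hK.kr_congr h').2 hTk)
  obtain ⟨l1, l2, l3⟩ := notL hz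
  obtain ⟨l1', l2', l3'⟩ := notL hz'
  have h0T : (0 : ℂ) ≠ T := fun h => hT (h ▸ lam_zero b)
  have hR : IsSys a b ({0, T} : Finset ℂ) := by
    refine ⟨?_, ?_, ?_⟩
    · intro u hu
      rcases Finset.mem_insert.1 hu with rfl | hu
      · exact lam_zero _
      · rw [Finset.mem_singleton.1 hu]
        exact hTa
    · intro w hw
      rcases huni w hw with h' | h'
      · exact ⟨0, by simp, by rwa [sub_zero]⟩
      · exact ⟨T, by simp, h'⟩
    · intro u hu u' hu' h
      rcases Finset.mem_insert.1 hu with rfl | hu <;> rcases Finset.mem_insert.1 hu' with rfl | hu'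
      · rfl
      · rw [Finset.mem_singleton.1 hu', zero_sub] at h
        exact absurd (lam_neg_iff.1 h) hT
      · rw [Finset.mem_singleton.1 hu, sub_zero] at h
        exact absurd h hT
      · rw [Finset.mem_singleton.1 hu, Finset.mem_singleton.1 hu']
  have hsum := iso_sum (e := e) (e' := e') ha hb hs hs' hR l3 l3'
  rw [Finset.sum_pair h0T, add_zero, add_zero] at hsum
  -- translation by `T`
  have htr : ∀ y : ℂ, y ∉ Lam b → y + T ∉ Lam b →
      (xx b e s (y + T) - X) * (xx b e s y - X) = (xx b e s T' - X) * (xx b e s (T + T') - X) := by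
    intro y hy hyT
    have h := (aB4 n t b hb T T' hO.t1 hO.t2 hO.t3 hO.t4 hO.t5).2.2.2 y hy hyT
    rw [hX]
    unfold xx
    have e1 : ∀ p q : ℂ, (p - e) / s - (q - e) / s = (p - q) / s := by
      intro p q
      ring
    rw [e1, e1, e1, e1, div_mul_div_comm, div_mul_div_comm, h]
  have k3 := (hO.sp3 hb (e := e) hs).2
  have k4 := hO.sp4 hb (e := e) hs
  rw [← hX] at k3 k4
  set X1 := xx b e s T'
  set X2 := xx b e s (T + T')
  have hδ : (X1 - X) * (X2 - X) = X ^ 2 - c4 b e s / 2 - c6 b e s / (2 * X) := by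
    rw [k3, k4]
    field_simp
    ring
  have d1 : xx b e s z - X ≠ 0 := by
    have : v (xx b e s z - X) = v X := v.map_sub_eq_of_lt_right (lt_of_le_of_lt c1 hX1)
    exact (v.ne_zero_iff).1 (by rw [this]; exact (v.ne_zero_iff).2 hX0)
  have d1' : xx b e s z' - X ≠ 0 := by
    have : v (xx b e s z' - X) = v X := v.map_sub_eq_of_lt_right (lt_of_le_of_lt c1' hX1)
    exact (v.ne_zero_iff).1 (by rw [this]; exact (v.ne_zero_iff).2 hX0)
  have t1 := htr z l1 l2
  have t1' := htr z' l1' l2'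
  rw [hδ] at t1 t1'
  set x := xx b e s z
  set x' := xx b e s z'
  set y := xx b e s (z + T)
  set y' := xx b e s (z' + T)
  set D := X ^ 2 - c4 b e s / 2 - c6 b e s / (2 * X) with hD
  have ey : y = X + D / (x - X) := by
    field_simp
    linear_combination t1
  have ey' : y' = X + D / (x' - X) := by
    field_simp
    linear_combination t1'
  -- `κ`
  set i := X⁻¹ with hidef
  have hXi2 : v ((2 * X)⁻¹) = 1 := by rw [map_inv₀, h2X, inv_one]
  set κ : ℂ := c4 b e s * (2 * X)⁻¹ + 2 * (c6 b e s * ((2 * X)⁻¹ * (2 * X)⁻¹)) with hκ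
  have hκ1 : v κ < 1 := by
    refine madd (mmulr h4 hXi2.le) (mmulr hv ?_)
    exact vmul hi.v6 (vmul hXi2.le hXi2.le)
  have hDκ : D = X ^ 2 - X * κ := by
    rw [hD, hκ]
    field_simp
    ring
  have main : -(s' / s) * X * (xx (a * b) e' s' z - xx (a * b) e' s' z') - (x ^ 2 - x' ^ 2) =
      (x - x') * (((x + x' - κ - x * x' * i) - (x + x') * ((1 - x * i) * (1 - x' * i))) /
        ((1 - x * i) * (1 - x' * i))) := by
    have e1 : -(s' / s) * X * (xx (a * b) e' s' z - xx (a * b) e' s' z') =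
        -X * (x + y - (x' + y')) := by
      have : s' / s * (xx (a * b) e' s' z - xx (a * b) e' s' z') = x + y - (x' + y') := by
        rw [hsum]
        ring
      rw [← this]
      ring
    have f1 : 1 - x * i = (X - x) * i := by
      rw [hidef]
      field_simp
    have f1' : 1 - x' * i = (X - x') * i := by
      rw [hidef]
      field_simp
    have g1 : X - x ≠ 0 := fun h => d1 (by linear_combination -h)
    have g1' : X - x' ≠ 0 := fun h => d1' (by linear_combination -h)
    have i0 : i ≠ 0 := inv_ne_zero hX0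
    rw [e1, ey, ey', hDκ, f1, f1']
    have e5 : (X + (X ^ 2 - X * κ) / (x - X)) = X - (X ^ 2 - X * κ) / (X - x) := by
      have : x - X = -(X - x) := by ring
      rw [this, div_neg]
      ring
    have e5' : (X + (X ^ 2 - X * κ) / (x' - X)) = X - (X ^ 2 - X * κ) / (X - x') := by
      have : x' - X = -(X - x') := by ring
      rw [this, div_neg]
      ring
    rw [e5, e5']
    have hiX : i * X = 1 := inv_mul_cancel₀ hX0
    rw [hidef]
    field_simp
    ring
  rw [main]
  have u1 : v (1 - x * i) = 1 := by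
    refine vone ?_
    have : 1 - x * i - 1 = -(x * i) := by ring
    rw [this]
    exact mneg (mmul c1 hXi)
  have u1' : v (1 - x' * i) = 1 := by
    refine vone ?_
    have : 1 - x' * i - 1 = -(x' * i) := by ring
    rw [this]
    exact mneg (mmul c1' hXi)
  refine mmul (vsub c1 c1') ?_
  rw [v.map_div, v.map_mul (1 - x * i), u1, u1', mul_one, div_one]
  have e9 : (x + x' - κ - x * x' * i) - (x + x') * ((1 - x * i) * (1 - x' * i)) =
      -κ + i * (-(x * x') + (x + x') * (x + x' - x * x' * i)) := by ring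
  rw [e9]
  refine madd (mneg hκ1) (mmulr hXi ?_)
  exact vadd (vneg (vmul c1 c1')) (vmul (vadd c1 c1') (vsub (vadd c1 c1') (vmul (vmul c1 c1') hXi.le)))

end

end Pool.Agent.DR
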